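import Pool.Agent.V1140.DP.Levels

/-!
# Summation over the central characters
-/

set_option autoImplicit false

open scoped BigOperators Classical
open Pool.Agent.Y63.KR Pool.Agent.Y63.AWC Pool.Agent.V1140.DC Pool.Agent.Helper884.IC

set_option linter.unusedSectionVars false

noncomputable section

namespace Pool.Agent.V1140.DP

variable {p : ℕ} {G : Type} [Group G] {Z : Subgroup G}

lemma finite_lin (A : Type) [Group A] [Finite A] : Finite (A →* ℂˣ) := by
  have hN : NeZero (Nat.card A) := ⟨Nat.card_pos.ne'⟩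
  have h1 : ∀ (f : A →* ℂˣ) (a : A), f a ∈ rootsOfUnity (Nat.card A) ℂ := by
    intro f a
    rw [mem_rootsOfUnity, ← map_pow, pow_card_eq_one', map_one]
  refine Finite.of_injective (fun f : A →* ℂˣ => fun a : A =>
    (⟨f a, h1 f a⟩ : rootsOfUnity (Nat.card A) ℂ)) ?_
  intro f g h
  ext a
  have h2 := congrArg Subtype.val (congrFun h a)
  exact congrArg Units.val h2

/-- each irreducible character lies over a unique linear character of `Z` -/
lemma exists_lam [Finite G] (hZ : Z ≤ Subgroup.center G) {H : Subgroup G} (hH : Z ≤ H)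
    {χ : H → ℂ} (hχ : IsIrreducibleCharacter χ) : ∃ lam : Z →* ℂˣ, IsOver Z lam χ := by
  have : Fintype H := Fintype.ofFinite H
  have : Fintype Z := Fintype.ofFinite Z
  obtain ⟨om, hom⟩ := exists_omega (Subgroup.inclusion hH) (fun a h => by
    apply Subtype.ext
    exact (central_comm hZ a.2 (h : G)).symm) hχ
  refine ⟨om.toHomUnits, fun z hz => ?_⟩
  have h1 := hom z 1
  rw [mul_one] at h1
  rw [MonoidHom.coe_toHomUnits, mul_comm]
  exact h1

lemma lam_unique {H : Subgroup G} (hH : Z ≤ H) [Finite G] {χ : H → ℂ}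
    (hχ : IsIrreducibleCharacter χ) {lam mu : Z →* ℂˣ} (h1 : IsOver Z lam χ)
    (h2 : IsOver Z mu χ) : lam = mu := by
  have : Fintype H := Fintype.ofFinite H
  have h0 : χ 1 ≠ 0 := one_ne hχ
  ext z
  have h3 := (h1 z (hH z.2)).symm.trans (h2 z (hH z.2))
  exact mul_left_cancel₀ h0 h3

lemma card_eq_sum [Finite G] [Fintype (Z →* ℂˣ)] (hZ : Z ≤ Subgroup.center G) {H : Subgroup G}
    (hH : Z ≤ H) (Q : (H → ℂ) → Prop) :
    Nat.card {χ : H → ℂ // IsIrreducibleCharacter χ ∧ Q χ} =
      ∑ lam : Z →* ℂˣ, Nat.card {χ : H → ℂ // IsIrreducibleCharacter χ ∧ IsOver Z lam χ ∧ Q χ} := by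
  have hfin : ∀ lam : Z →* ℂˣ, Finite {χ : H → ℂ // IsIrreducibleCharacter χ ∧
      IsOver Z lam χ ∧ Q χ} := fun lam => finite_irr _ _
  rw [← Nat.card_sigma]
  refine Nat.card_congr
    { toFun := fun χ => ⟨(exists_lam hZ hH χ.2.1).choose, χ.1, χ.2.1,
        (exists_lam hZ hH χ.2.1).choose_spec, χ.2.2⟩
      invFun := fun t => ⟨t.2.1, t.2.2.1, t.2.2.2.2⟩
      left_inv := fun χ => rfl
      right_inv := ?_ }
  rintro ⟨lam, χ, h1, h2, h3⟩
  have h4 : (exists_lam hZ hH h1).choose = lam :=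
    lam_unique hH h1 (exists_lam hZ hH h1).choose_spec h2
  simp only
  subst h4
  rfl

lemma zSum_congr {f g : Subgroup G → ℤ} (h : ∀ H : Subgroup G, Z ≤ H → f H = g H)
    (hZ : Z ≤ Subgroup.center G) : zSum p Z f = zSum p Z g := by
  unfold zSum
  refine finsum_congr fun c => ?_
  rw [h _ (le_chainStabilizer hZ _)]

lemma zSum_sum [Finite G] {ι : Type} (s : Finset ι) (f : ι → Subgroup G → ℤ) :
    zSum p Z (fun M => ∑ i ∈ s, f i M) = ∑ i ∈ s, zSum p Z (f i) := by
  have : Fintype (Quotient (zchainSetoid p Z)) := Fintype.ofFinite _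
  unfold zSum
  simp only [finsum_eq_sum_of_fintype]
  rw [Finset.sum_comm]
  refine Finset.sum_congr rfl fun c _ => ?_
  rw [Finset.mul_sum]

/-- for a `p`-group `Z` the sum does not depend on `λ` -/
lemma sum_irrOver [Fact p.Prime] [Finite G] (hZ : Z ≤ Subgroup.center G) (hp : IsPGroup p Z)
    (lam : Z →* ℂˣ) : zSum p Z (fun H => (numIrrOver Z lam H : ℤ)) =
      zSum p Z (fun H => (numIrrOver Z 1 H : ℤ)) := by
  simp only [numIrrOver_eq]
  refine master hZ (fun z hz => ?_) (Nat.coprime_one_left _) (Nat.coprime_one_left _) rfl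
    (fun z _ => pow_one _) (fun z _ => pow_one _)
  obtain ⟨k, hk⟩ := hp z
  have h1 : orderOf z ∣ p ^ k := orderOf_dvd_iff_pow_eq_one.2 hk
  have h2 : orderOf z = 1 := by
    obtain ⟨i, -, hi⟩ := (Nat.dvd_prime_pow Fact.out).1 h1
    rcases Nat.eq_zero_or_pos i with h | h
    · rw [hi, h, pow_zero]
    · exact absurd (hi ▸ dvd_pow_self p (by omega)) hz
  rw [orderOf_eq_one_iff.1 h2, map_one, map_one]

/-- `p^a`-rational characters lie over linear characters of order dividing `p^a` -/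
lemma lam_pow [Fact p.Prime] [Finite G] (hp : IsPGroup p Z) {H : Subgroup G}
    (hH : Z ≤ H) {a : ℕ} (ha : p = 2 → 2 ≤ a) {χ : H → ℂ} (hχ : IsIrreducibleCharacter χ)
    {lam : Z →* ℂˣ} (h1 : IsOver Z lam χ) (h2 : IsRationalChar p a χ) : lam ^ p ^ a = 1 := by
  have hpp : p.Prime := Fact.out
  have : Fintype H := Fintype.ofFinite H
  have h0 : χ 1 ≠ 0 := one_ne hχ
  have hH0 : Nat.card H ≠ 0 := Nat.card_pos.ne'
  ext z
  obtain ⟨n, hn⟩ : ∃ n, n = (Nat.card H).factorization p := ⟨_, rfl⟩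
  -- the order of `z`
  have hz : (z : Z) ^ p ^ n = 1 := by
    obtain ⟨k, hk⟩ := hp z
    obtain ⟨i, -, hi⟩ := (Nat.dvd_prime_pow hpp).1 (orderOf_dvd_iff_pow_eq_one.2 hk)
    have h3 : orderOf z ∣ Nat.card H := by
      have h4 := orderOf_dvd_natCard (Subgroup.inclusion hH z)
      rwa [orderOf_injective (Subgroup.inclusion hH) (Subgroup.inclusion_injective hH)] at h4
    rw [← orderOf_dvd_iff_pow_eq_one, hi, hn]
    apply pow_dvd_pow
    rw [hi] at h3
    exact (hpp.pow_dvd_iff_le_factorization hH0).1 h3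
  rw [MonoidHom.pow_apply, MonoidHom.one_apply]
  rcases Nat.lt_or_ge n a with hna | hna
  · obtain ⟨k, hk⟩ := pow_dvd_pow p hna.le
    rw [← map_pow, hk, pow_mul, hz, one_pow, map_one]
  · have hcop : Nat.Coprime (p ^ n) (Nat.card H / p ^ n) := by
      rw [hn]
      exact Nat.Coprime.pow_left _ ((Nat.Prime.coprime_iff_not_dvd hpp).mpr
        (Nat.not_dvd_ordCompl hpp hH0))
    obtain ⟨s, hs1, hs2⟩ := Nat.chineseRemainder hcop (1 + p ^ a) 1
    have hzs : z ^ s = z ^ (1 + p ^ a) := by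
      rw [pow_eq_pow_iff_modEq]
      exact hs1.of_dvd (orderOf_dvd_iff_pow_eq_one.2 hz)
    rcases Nat.eq_zero_or_pos n with h5 | h5
    · have h6 : z = 1 := by
        rw [h5, pow_zero, pow_one] at hz
        exact hz
      rw [h6, map_one, one_pow]
    · have hps : ¬ p ∣ s := by
        intro h6
        have h7 : s ≡ 1 + p ^ a [MOD p] := hs1.of_dvd (dvd_pow_self p (by omega))
        have h8 : p ∣ 1 + p ^ a := (h7.dvd_iff (dvd_refl p)).1 h6
        rcases Nat.eq_zero_or_pos a with h9 | h9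
        · rw [h9, pow_zero] at h8
          have h10 : p = 2 := (Nat.prime_dvd_prime_iff_eq hpp Nat.prime_two).1 h8
          have := ha h10
          omega
        · have h10 : p ∣ 1 := (Nat.dvd_add_left (dvd_pow_self p (by omega))).1 h8
          exact hpp.one_lt.ne' (Nat.dvd_one.1 h10)
      have hsa : s ≡ 1 [MOD p ^ a] := by
        have h6 := hs1.of_dvd (pow_dvd_pow p hna)
        refine h6.trans ?_
        simp [Nat.ModEq]
      have h3 := h2 s hps hsa (by rw [← hn]; exact hs2) ⟨z, hH z.2⟩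
      have h4 : (⟨z, hH z.2⟩ : H) ^ s = ⟨((z ^ s : Z) : G), hH (z ^ s).2⟩ := Subtype.ext rfl
      rw [h4, h1, h1, hzs, map_pow] at h3
      have h6 : ((lam z) ^ (1 + p ^ a) : ℂˣ) = lam z := by
        apply Units.ext
        exact mul_left_cancel₀ h0 h3
      rw [pow_add, pow_one] at h6
      have h7 : (lam z) ^ p ^ a = 1 := by
        have h8 : lam z * lam z ^ p ^ a = lam z * 1 := by rw [h6, mul_one]
        exact mul_left_cancel h8
      rw [h7]

/-- The number of the linear characters of `Z`. -/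
def numLin (Z : Subgroup G) : ℕ := Nat.card (Z →* ℂˣ)

/-- The number of the linear characters `λ` of `Z` with `λ ^ n = 1`. -/
def numLinPow (n : ℕ) (Z : Subgroup G) : ℕ := Nat.card {lam : Z →* ℂˣ // lam ^ n = 1}

/-- The number of the irreducible characters of `H`. -/
def numIrrChar (H : Type) [Group H] : ℕ := Nat.card {χ : H → ℂ // IsIrreducibleCharacter χ}

theorem total [Fact p.Prime] [Finite G] (hZ : Z ≤ Subgroup.center G) (hp : IsPGroup p Z) :
    zSum p Z (fun H => (numIrrChar H : ℤ)) =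
      (numLin Z : ℤ) * zSum p Z (fun H => (numIrrOver Z 1 H : ℤ)) := by
  have := finite_lin Z
  have : Fintype (Z →* ℂˣ) := Fintype.ofFinite _
  have e1 : zSum p Z (fun H => (numIrrChar H : ℤ)) =
      zSum p Z (fun H => ∑ lam : Z →* ℂˣ, (numIrrOver Z lam H : ℤ)) := by
    refine zSum_congr (fun H hH => ?_) hZ
    have h1 := card_eq_sum hZ hH (fun _ => True)
    have h2 : numIrrChar H = Nat.card {χ : H → ℂ // IsIrreducibleCharacter χ ∧ True} :=
      Nat.card_congr (Equiv.subtypeEquivRight fun χ => by simp)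
    have h3 : ∀ lam : Z →* ℂˣ, Nat.card {χ : H → ℂ // IsIrreducibleCharacter χ ∧
        IsOver Z lam χ ∧ True} = numIrrOver Z lam H := fun lam =>
      Nat.card_congr (Equiv.subtypeEquivRight fun χ => by simp)
    rw [h2, h1, Finset.sum_congr rfl fun lam _ => h3 lam]
    push_cast
    rfl
  rw [e1, zSum_sum, Finset.sum_congr rfl fun lam _ => sum_irrOver hZ hp lam, Finset.sum_const,
    nsmul_eq_mul]
  unfold numLin
  rw [Nat.card_eq_fintype_card, Finset.card_univ]

theorem rational [Fact p.Prime] [Finite G] (hZ : Z ≤ Subgroup.center G) (hp : IsPGroup p Z)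
    {a : ℕ} (ha : p = 2 → 2 ≤ a) :
    zSum p Z (fun H => (numRationalChar p a H : ℤ)) =
      (numLinPow (p ^ a) Z : ℤ) * zSum p Z (fun H => (numIrrOver Z 1 H : ℤ)) := by
  have := finite_lin Z
  have : Fintype (Z →* ℂˣ) := Fintype.ofFinite _
  have e1 : zSum p Z (fun H => (numRationalChar p a H : ℤ)) =
      zSum p Z (fun H => ∑ lam ∈ Finset.univ.filter (fun lam : Z →* ℂˣ => lam ^ p ^ a = 1),
        (numRationalOver p a Z lam H : ℤ)) := by
    refine zSum_congr (fun H hH => ?_) hZ
    have h1 := card_eq_sum hZ hH (fun χ => IsRationalChar p a χ)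
    have h2 : numRationalChar p a H =
        ∑ lam : Z →* ℂˣ, numRationalOver p a Z lam H := h1
    rw [h2]
    push_cast
    rw [Finset.sum_filter]
    refine Finset.sum_congr rfl fun lam _ => ?_
    by_cases hl : lam ^ p ^ a = 1
    · rw [if_pos hl]
    · rw [if_neg hl, Nat.cast_eq_zero]
      unfold numRationalOver
      rw [Nat.card_eq_zero]
      left
      constructor
      rintro ⟨χ, h3, h4, h5⟩
      exact hl (lam_pow hp hH ha h3 h4 h5)
  rw [e1, zSum_sum, Finset.sum_congr rfl fun lam hlam => ?_, Finset.sum_const, nsmul_eq_mul]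
  · unfold numLinPow
    rw [Nat.card_eq_fintype_card, Fintype.card_subtype]
  · rw [sum_rationalOver hZ lam ha (fun z _ => ?_), sum_irrOver hZ hp lam]
    have h1 := congrArg (fun f : Z →* ℂˣ => f z) (Finset.mem_filter.1 hlam).2
    exact h1

end Pool.Agent.V1140.DP
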