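import Pool.Agent.Y63.KR.Basic

/-!
# Chains of `p`-subgroups above a central `p`-subgroup: orbit counting and cancellation

The proofs follow `Pool.Agent.Y63.KR.Basic`.
-/

set_option autoImplicit false

open scoped Classical BigOperators

set_option linter.unusedSectionVars false

noncomputable section

namespace Pool.Agent.V1140.DP

open Pool.Agent.Y63.KR

section

variable {G : Type} [Group G]

/-- `σ` is (the set of members of) a chain of `p`-subgroups of `G` which properly contain the Sylow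
`p`-subgroup `Z_p` of `Z`: each member contains all the elements of `Z` of `p`-power order and is not
contained in `Z`. The empty chain is allowed. -/
structure IsZChain (p : ℕ) (Z : Subgroup G) (σ : Set (Subgroup G)) : Prop where
  chain : IsChain (· ≤ ·) σ
  isPGroup : ∀ P ∈ σ, IsPGroup p P
  le : ∀ P ∈ σ, ∀ z ∈ Z, (∃ k : ℕ, z ^ p ^ k = 1) → z ∈ P
  not_le : ∀ P ∈ σ, ¬ P ≤ Z

theorem zconj_equivalence (p : ℕ) (Z : Subgroup G) :
    Equivalence (fun σ τ : {σ : Set (Subgroup G) // IsZChain p Z σ} =>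
      ∃ g : G, τ.1 = conjSub g '' σ.1) :=
  { refl := fun σ => ⟨1, by
      have : (conjSub (1 : G)) = id := funext conjSub_one
      rw [this, Set.image_id]⟩
    symm := by
      rintro σ τ ⟨g, hg⟩
      refine ⟨g⁻¹, ?_⟩
      rw [hg, ← Set.image_comp]
      have : conjSub g⁻¹ ∘ conjSub g = id := funext fun P => by
        rw [Function.comp_apply, ← conjSub_mul, inv_mul_cancel, conjSub_one, id]
      rw [this, Set.image_id]
    trans := by
      rintro σ τ υ ⟨g, hg⟩ ⟨h, hh⟩
      refine ⟨h * g, ?_⟩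
      rw [hh, hg, ← Set.image_comp]
      congr 1
      exact (funext fun P => conjSub_mul h g P).symm }

/-- Conjugacy of chains. -/
def zchainSetoid (p : ℕ) (Z : Subgroup G) : Setoid {σ : Set (Subgroup G) // IsZChain p Z σ} where
  r σ τ := ∃ g : G, τ.1 = conjSub g '' σ.1
  iseqv := zconj_equivalence p Z

/-- The alternating sum `∑_σ (-1)^|σ| f(G_σ)` over representatives `σ` of the `G`-conjugacy classes
of chains of `p`-subgroups of `G` with first member `Z_p`; `|σ|` is the number of the other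
members. -/
def zSum (p : ℕ) (Z : Subgroup G) (f : Subgroup G → ℤ) : ℤ :=
  ∑ᶠ c : Quotient (zchainSetoid p Z), (-1) ^ c.out.1.ncard * f (chainStabilizer c.out.1)

end

variable {p : ℕ} {G : Type} [Group G] {Z : Subgroup G}

lemma central_comm (hZ : Z ≤ Subgroup.center G) {z : G} (hz : z ∈ Z) (g : G) : g * z = z * g :=
  Subgroup.mem_center_iff.mp (hZ hz) g

lemma IsZChain.conj (hZ : Z ≤ Subgroup.center G) {σ : Set (Subgroup G)} (h : IsZChain p Z σ)
    (g : G) : IsZChain p Z (conjSub g '' σ) := by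
  refine ⟨?_, ?_, ?_, ?_⟩
  · rintro _ ⟨P, hP, rfl⟩ _ ⟨Q, hQ, rfl⟩ _
    rcases h.chain.total hP hQ with h1 | h1
    · exact Or.inl (conjSub_le h1)
    · exact Or.inr (conjSub_le h1)
  · rintro _ ⟨P, hP, rfl⟩
    exact (h.isPGroup P hP).map _
  · rintro _ ⟨P, hP, rfl⟩ z hz hk
    rw [mem_conjSub]
    have e : g⁻¹ * z * g = z := by rw [central_comm hZ hz, inv_mul_cancel_right]
    rw [e]
    exact h.le P hP z hz hk
  · rintro _ ⟨P, hP, rfl⟩ h1
    refine h.not_le P hP fun x hx => ?_
    have h2 := h1 (conj_mem_conjSub (g := g) hx)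
    have e : g * x * g⁻¹ = x := by
      have h3 := central_comm hZ h2 g⁻¹
      have h4 : g⁻¹ * (g * x * g⁻¹) * g = x := by group
      rw [h3] at h4
      rw [inv_mul_cancel_right] at h4
      exact h4
    rwa [e] at h2

theorem card_mul_zSum [Finite G] (hZ : Z ≤ Subgroup.center G) (f : Subgroup G → ℤ)
    (hf : ∀ (g : G) (σ : Set (Subgroup G)), IsZChain p Z σ →
      f (conjSub g (chainStabilizer σ)) = f (chainStabilizer σ))
    [Fintype {σ : Set (Subgroup G) // IsZChain p Z σ}] :
    (Nat.card G : ℤ) * zSum p Z f =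
      ∑ σ : {σ : Set (Subgroup G) // IsZChain p Z σ},
        (-1) ^ σ.1.ncard * ((Nat.card (chainStabilizer σ.1) : ℤ) * f (chainStabilizer σ.1)) := by
  letI : MulAction G {σ : Set (Subgroup G) // IsZChain p Z σ} :=
    { smul := fun g σ => ⟨conjSub g '' σ.1, σ.2.conj hZ g⟩
      one_smul := fun σ => by
        apply Subtype.ext
        change conjSub (1 : G) '' σ.1 = σ.1
        have : (conjSub (1 : G)) = id := funext conjSub_one
        rw [this, Set.image_id]
      mul_smul := fun g h σ => by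
        apply Subtype.ext
        change conjSub (g * h) '' σ.1 = conjSub g '' (conjSub h '' σ.1)
        rw [← Set.image_comp]
        congr 1
        exact funext fun P => conjSub_mul g h P }
  have hsm : ∀ (g : G) (σ : {σ : Set (Subgroup G) // IsZChain p Z σ}),
      (g • σ).1 = conjSub g '' σ.1 := fun _ _ => rfl
  have h := orbit_sum (G := G) (zchainSetoid p Z) (by
    intro σ τ
    change (∃ g : G, τ.1 = conjSub g '' σ.1) ↔ _
    constructor
    · rintro ⟨g, hg⟩
      exact ⟨g, Subtype.ext (by rw [hsm, hg])⟩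
    · rintro ⟨g, hg⟩
      exact ⟨g, by rw [← hg, hsm]⟩)
    (fun σ => (-1) ^ σ.1.ncard * f (chainStabilizer σ.1)) (by
      rintro σ τ ⟨g, hg⟩
      change (-1) ^ σ.1.ncard * f (chainStabilizer σ.1) =
        (-1) ^ τ.1.ncard * f (chainStabilizer τ.1)
      rw [hg, ncard_conj, chainStabilizer_conj, hf g σ.1 σ.2])
  unfold zSum
  rw [h]
  refine Finset.sum_congr rfl fun σ _ => ?_
  have hst : Nat.card (MulAction.stabilizer G σ) = Nat.card (chainStabilizer σ.1) := by
    refine Nat.card_congr (Equiv.subtypeEquivRight fun g => ?_)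
    rw [MulAction.mem_stabilizer_iff, Subtype.ext_iff, hsm, mem_chainStabilizer]
    constructor
    · intro h3 P hP
      have hgP : conjSub g P ∈ σ.1 := by
        rw [← h3]
        exact ⟨P, hP, rfl⟩
      have hcard : Nat.card (conjSub g P) = Nat.card P :=
        Nat.card_congr (Subgroup.equivMapOfInjective _ _ (MulAut.conj g).injective).toEquiv.symm
      rcases σ.2.chain.total hgP hP with h4 | h4
      · exact Subgroup.eq_of_le_of_card_ge h4 hcard.ge
      · exact (Subgroup.eq_of_le_of_card_ge h4 hcard.le).symm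
    · intro h3
      ext P
      constructor
      · rintro ⟨Q, hQ, rfl⟩
        rw [h3 Q hQ]
        exact hQ
      · intro hP
        exact ⟨P, hP, h3 P hP⟩
  rw [hst]
  ring

/-- the toggled chain is a chain -/
lemma ztoggle_mem [Fact p.Prime] [Finite G] {U : Subgroup G} {K : Set G} (hU : IsPGroup p U)
    (hU1 : ¬ U ≤ Z) (hU2 : ∀ z ∈ Z, (∃ k : ℕ, z ^ p ^ k = 1) → z ∈ U)
    (hUK : ∀ P : Subgroup G, (∀ x ∈ K, conjSub x P = P) → U ≤ Subgroup.normalizer (P : Set G))
    (hKU : ∀ x ∈ K, conjSub x U = U)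
    {σ : Set (Subgroup G)} (hσ : IsZChain p Z σ) (hK : ∀ P ∈ σ, ∀ x ∈ K, conjSub x P = P) :
    IsZChain p Z (toggle U σ) ∧ ∀ P ∈ toggle U σ, ∀ x ∈ K, conjSub x P = P := by
  have hL := lower_cases hσ.chain U
  have hLK : ∀ x ∈ K, conjSub x (lower U σ) = lower U σ := by
    intro x hx
    rcases hL with h | h
    · rw [h]
      ext y
      rw [mem_conjSub, Subgroup.mem_bot, Subgroup.mem_bot]
      constructor
      · intro hy
        have : y = x * (x⁻¹ * y * x) * x⁻¹ := by group
        rw [this, hy]; group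
      · rintro rfl; group
    · exact hK _ h.1 x hx
  have hLp : IsPGroup p (lower U σ) := by
    rcases hL with h | h
    · rw [h]; exact IsPGroup.of_bot
    · exact hσ.isPGroup _ h.1
  have hUN : U ≤ Subgroup.normalizer (lower U σ : Set G) := hUK _ hLK
  have hTp : IsPGroup p (toggled U σ) := IsPGroup.to_sup_of_normal_left' hLp hU hUN
  have hTK : ∀ x ∈ K, conjSub x (toggled U σ) = toggled U σ := by
    intro x hx
    unfold toggled
    have : conjSub x (lower U σ ⊔ U) = conjSub x (lower U σ) ⊔ conjSub x U :=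
      Subgroup.map_sup _ _ _
    rw [this, hLK x hx, hKU x hx]
  have hT1 : ¬ toggled U σ ≤ Z := fun h => hU1 ((le_toggled U σ).trans h)
  have hT2 : ∀ z ∈ Z, (∃ k : ℕ, z ^ p ^ k = 1) → z ∈ toggled U σ :=
    fun z hz hk => le_toggled U σ (hU2 z hz hk)
  by_cases h : toggled U σ ∈ σ
  · have h1 : toggle U σ = σ \ {toggled U σ} := if_pos h
    rw [h1]
    exact ⟨⟨hσ.chain.mono Set.diff_subset, fun P hP => hσ.isPGroup P hP.1,
      fun P hP => hσ.le P hP.1, fun P hP => hσ.not_le P hP.1⟩, fun P hP => hK P hP.1⟩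
  · have h1 : toggle U σ = insert (toggled U σ) σ := if_neg h
    rw [h1]
    refine ⟨⟨?_, ?_, ?_, ?_⟩, ?_⟩
    · refine hσ.chain.insert fun P hP _ => ?_
      rcases comparable (U := U) hσ.chain hP with h2 | h2
      · exact Or.inr h2
      · exact Or.inl h2
    · rintro P (rfl | hP)
      · exact hTp
      · exact hσ.isPGroup P hP
    · rintro P (rfl | hP)
      · exact hT2
      · exact hσ.le P hP
    · rintro P (rfl | hP)
      · exact hT1
      · exact hσ.not_le P hP
    · rintro P (rfl | hP)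
      · exact hTK
      · exact hK P hP

/-- the alternating sum of the chains normalised by `K` -/
def zW (p : ℕ) {G : Type} [Group G] (Z : Subgroup G) (K : Set G) : ℤ :=
  ∑ᶠ σ : {σ : Set (Subgroup G) // IsZChain p Z σ},
      (-1 : ℤ) ^ σ.1.ncard * (if ∀ P ∈ σ.1, ∀ x ∈ K, conjSub x P = P then 1 else 0)

/-- **Cancellation.** -/
theorem zW_eq_zero [Fact p.Prime] [Finite G] {U : Subgroup G} {K : Set G} (hU : IsPGroup p U)
    (hU1 : ¬ U ≤ Z) (hU2 : ∀ z ∈ Z, (∃ k : ℕ, z ^ p ^ k = 1) → z ∈ U)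
    (hUK : ∀ P : Subgroup G, (∀ x ∈ K, conjSub x P = P) → U ≤ Subgroup.normalizer (P : Set G))
    (hKU : ∀ x ∈ K, conjSub x U = U) : zW p Z K = 0 := by
  have : Fintype {σ : Set (Subgroup G) // IsZChain p Z σ} := Fintype.ofFinite _
  unfold zW
  rw [finsum_eq_sum_of_fintype]
  have : ∀ σ : {σ : Set (Subgroup G) // IsZChain p Z σ},
      (-1 : ℤ) ^ σ.1.ncard * (if ∀ P ∈ σ.1, ∀ x ∈ K, conjSub x P = P then 1 else 0) =
      if ∀ P ∈ σ.1, ∀ x ∈ K, conjSub x P = P then (-1 : ℤ) ^ σ.1.ncard else 0 := by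
    intro σ
    split_ifs <;> simp
  simp only [this]
  rw [← Finset.sum_filter]
  refine Finset.sum_involution
    (fun σ hσ => ⟨toggle U σ.1,
      (ztoggle_mem hU hU1 hU2 hUK hKU σ.2 (Finset.mem_filter.mp hσ).2).1⟩)
    ?_ ?_ ?_ ?_
  · intro σ hσ
    change (-1 : ℤ) ^ σ.1.ncard + (-1) ^ (toggle U σ.1).ncard = 0
    rw [ncard_toggle]
    ring
  · intro σ hσ _ h
    have h1 : toggle U σ.1 = σ.1 := congrArg Subtype.val h
    have h2 := ncard_toggle U σ.1
    rw [h1] at h2
    have h3 : ((-1 : ℤ)) ^ σ.1.ncard ≠ 0 := pow_ne_zero _ (by norm_num)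
    omega
  · intro σ hσ
    rw [Finset.mem_filter]
    exact ⟨Finset.mem_univ _,
      (ztoggle_mem hU hU1 hU2 hUK hKU σ.2 (Finset.mem_filter.mp hσ).2).2⟩
  · intro σ hσ
    apply Subtype.ext
    exact toggle_toggle U σ.1

end Pool.Agent.V1140.DP
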