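import Pool.Agent.V1140.DC.Fix

/-!
# Counting the characters over a central character which are fixed by a power map
-/

set_option autoImplicit false

open scoped BigOperators Classical
open Representation Pool.Agent.Helper884.IC Pool.Agent.Y63.AWC Pool.Agent.V1140.DC

noncomputable section

namespace Pool.Agent.V1140.DP

/-- Schur's lemma: central elements act by scalars -/
lemma central_char {H : Type} [Group H] {χ : H → ℂ} (hχ : IsIrrChar χ) {z : H}
    (hz : ∀ h : H, z * h = h * z) : ∃ c : ℂ, ∀ h : H, χ (z * h) = c * χ h := by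
  obtain ⟨V, _, _, _, rho, hirr, rfl⟩ := hχ
  have hcomm : ∀ (h : H) (v : V), rho z (rho h v) = rho h (rho z v) := by
    intro h v
    rw [← Module.End.mul_apply, ← Module.End.mul_apply, ← map_mul, ← map_mul, hz]
  let T : IntertwiningMap rho rho := (rho z).intertwiningMap_of_isIntertwiningMap rho rho hcomm
  obtain ⟨c, hc⟩ := (Representation.IsIrreducible.algebraMap_intertwiningMap_bijective_of_isAlgClosed
    (ρ := rho)).2 T
  have hT : rho z = c • LinearMap.id := by
    ext v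
    have := congrArg (fun S : IntertwiningMap rho rho => S v) hc
    have h2 : T v = rho z v := rfl
    rw [← h2]
    exact this.symm
  refine ⟨c, fun h => ?_⟩
  simp only [Representation.character]
  rw [map_mul, hT]
  have e : (c • LinearMap.id : V →ₗ[ℂ] V) * rho h = c • rho h := by
    ext v
    simp
  rw [e, map_smul, smul_eq_mul]

section

variable {H A : Type} [Group H] [Fintype H] [Group A] [Fintype A] (j : A →* H)
  (hj : ∀ (a : A) (h : H), j a * h = h * j a) (lam : A →* ℂˣ)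

include hj in
/-- the central character -/
lemma exists_omega {χ : H → ℂ} (hχ : IsIrrChar χ) :
    ∃ om : A →* ℂ, ∀ (a : A) (h : H), χ (j a * h) = om a * χ h := by
  choose c hc using fun a : A => central_char hχ (hj a)
  have h1 : χ 1 ≠ 0 := one_ne hχ
  refine ⟨{ toFun := c, map_one' := ?_, map_mul' := ?_ }, hc⟩
  · have h2 := hc 1 1
    rw [map_one, mul_one] at h2
    field_simp at h2
    exact h2.symm
  · intro a b
    have h2 := hc (a * b) 1
    rw [map_mul, mul_assoc, hc a, hc b, ← mul_assoc] at h2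
    exact (mul_right_cancel₀ h1 h2).symm

include hj in
lemma sum_one {s : ℕ} (hs : Nat.Coprime s (Nat.card H)) {χ : H → ℂ} (hχ : IsIrrChar χ) :
    ∑ a : A, ((lam a : ℂ)⁻¹) * B (fun g => χ (j a * g ^ s)) χ =
      if (∀ a, χ (j a) = χ 1 * lam a) ∧ ∀ g, χ (g ^ s) = χ g then (Fintype.card A : ℂ) else 0 := by
  obtain ⟨om, hom⟩ := exists_omega j hj hχ
  have h1 : χ 1 ≠ 0 := one_ne hχ
  have h2 : ∀ a : A, B (fun g => χ (j a * g ^ s)) χ =
      om a * (if ∀ g, χ (g ^ s) = χ g then 1 else 0) := by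
    intro a
    have e : (fun g => χ (j a * g ^ s)) = om a • (fun g => χ (g ^ s)) := by
      funext g
      rw [Pi.smul_apply, smul_eq_mul, hom]
    rw [e, B_smul_left, B_irr (irr_pow hs hχ) hχ]
    congr 2
    exact propext funext_iff
  have h3 : ∀ a : A, ((lam a : ℂ)⁻¹) * B (fun g => χ (j a * g ^ s)) χ =
      (((Units.coeHom ℂ).comp lam⁻¹) * om) a * (if ∀ g, χ (g ^ s) = χ g then 1 else 0) := by
    intro a
    rw [h2 a, ← mul_assoc]
    congr 1
    rw [MonoidHom.mul_apply]
    congr 1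
    rw [MonoidHom.comp_apply, MonoidHom.inv_apply, Units.coeHom_apply, Units.val_inv_eq_inv_val]
  rw [Finset.sum_congr rfl fun a _ => h3 a, ← Finset.sum_mul,
    sum_hom_units ((Units.coeHom ℂ).comp lam⁻¹ * om)]
  have h4 : ((Units.coeHom ℂ).comp lam⁻¹ * om = 1) ↔ ∀ a, χ (j a) = χ 1 * lam a := by
    rw [MonoidHom.ext_iff]
    refine forall_congr' fun a => ?_
    rw [MonoidHom.mul_apply, MonoidHom.comp_apply, MonoidHom.inv_apply, Units.coeHom_apply,
      Units.val_inv_eq_inv_val, MonoidHom.one_apply]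
    have h5 : χ (j a) = om a * χ 1 := by
      have := hom a 1
      rwa [mul_one] at this
    have h6 : (lam a : ℂ) ≠ 0 := Units.ne_zero _
    rw [h5, inv_mul_eq_one₀ h6]
    constructor
    · intro h7
      rw [← h7, mul_comm]
    · intro h7
      rw [mul_comm] at h7
      exact (mul_left_cancel₀ h1 h7).symm
  by_cases h5 : ∀ a, χ (j a) = χ 1 * lam a
  · by_cases h6 : ∀ g, χ (g ^ s) = χ g
    · rw [if_pos (h4.2 h5), if_pos h6, if_pos ⟨h5, h6⟩, mul_one]
    · have h7 : ¬ ((∀ a, χ (j a) = χ 1 * lam a) ∧ ∀ g, χ (g ^ s) = χ g) := fun h => h6 h.2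
      rw [if_neg h6, if_neg h7, mul_zero]
  · have h7 : ¬ ((∀ a, χ (j a) = χ 1 * lam a) ∧ ∀ g, χ (g ^ s) = χ g) := fun h => h5 h.1
    have h8 : ¬ ((Units.coeHom ℂ).comp lam⁻¹ * om = 1) := fun h => h5 (h4.1 h)
    rw [if_neg h8, if_neg h7]
    simp

include hj in
/-- **The number of the characters over `λ` fixed by the `s`-th power map.** -/
theorem count_over {s : ℕ} (hs : Nat.Coprime s (Nat.card H)) :
    (Nat.card A : ℂ) * (Nat.card H : ℂ) *
      (Nat.card {χ : H → ℂ // IsIrreducibleCharacter χ ∧ (∀ a, χ (j a) = χ 1 * lam a) ∧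
        ∀ g, χ (g ^ s) = χ g} : ℂ) =
      ∑ g : H, ∑ n : H, ∑ a : A, if n * (j a * g ^ s) * n⁻¹ = g then ((lam a : ℂ)⁻¹) else 0 := by
  have hc0 : (Nat.card H : ℂ) ≠ 0 := by exact_mod_cast Nat.card_pos.ne'
  have h1 : ∑ χ ∈ Irr H, ∑ a : A, ((lam a : ℂ)⁻¹) * B (fun g => χ (j a * g ^ s)) χ =
      (Nat.card A : ℂ) * (Nat.card {χ : H → ℂ // IsIrreducibleCharacter χ ∧
        (∀ a, χ (j a) = χ 1 * lam a) ∧ ∀ g, χ (g ^ s) = χ g} : ℂ) := by
    rw [Finset.sum_congr rfl fun χ hχ => sum_one j hj lam hs (mem_Irr.1 hχ), Finset.sum_ite,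
      Finset.sum_const_zero, add_zero, Finset.sum_const, nsmul_eq_mul, mul_comm,
      Nat.card_eq_fintype_card (α := A)]
    congr 2
    symm
    refine Nat.subtype_card _ fun χ => ?_
    rw [Finset.mem_filter, mem_Irr]
    exact Iff.rfl
  have h2 : (Nat.card H : ℂ) * ∑ χ ∈ Irr H, ∑ a : A, ((lam a : ℂ)⁻¹) *
      B (fun g => χ (j a * g ^ s)) χ =
      ∑ g : H, ∑ n : H, ∑ a : A, if n * (j a * g ^ s) * n⁻¹ = g then ((lam a : ℂ)⁻¹) else 0 := by
    rw [Finset.sum_comm, Finset.mul_sum]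
    have h3 : ∀ a : A, (Nat.card H : ℂ) * ∑ χ ∈ Irr H, ((lam a : ℂ)⁻¹) *
        B (fun g => χ (j a * g ^ s)) χ =
        ∑ g : H, ∑ n : H, if n * (j a * g ^ s) * n⁻¹ = g then ((lam a : ℂ)⁻¹) else 0 := by
      intro a
      unfold B
      rw [← Finset.mul_sum, ← Finset.mul_sum, Finset.sum_comm, mul_comm ((lam a : ℂ)⁻¹),
        ← mul_assoc, ← mul_assoc, mul_inv_cancel₀ hc0, one_mul, Finset.sum_mul]
      refine Finset.sum_congr rfl fun g _ => ?_
      rw [col_orth (j a * g ^ s) g, Nat.card_eq_fintype_card, Fintype.card_subtype,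
        ← Finset.sum_filter, Finset.sum_const, nsmul_eq_mul]
    rw [Finset.sum_congr rfl fun a _ => h3 a, Finset.sum_comm]
    refine Finset.sum_congr rfl fun g _ => ?_
    rw [Finset.sum_comm]
  rw [← h2, h1]
  ring

end

end Pool.Agent.V1140.DP
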