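import Pool.Agent.V1140.DP.Chain
import Pool.Agent.V1140.DP.Over

/-!
# Characters over a central character: the alternating sum and its cancellation
-/

set_option autoImplicit false

open scoped BigOperators Classical
open Pool.Agent.Y63.KR Pool.Agent.Y63.AWC Pool.Agent.V1140.DC

set_option linter.unusedSectionVars false

noncomputable section

namespace Pool.Agent.V1140.DP

variable {p : ℕ} {G : Type} [Group G] {Z : Subgroup G}

/-- `χ` lies over the linear character `λ` of the central subgroup `Z`: the restriction of `χ` to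
`Z` is `χ(1) λ`. -/
def IsOver (Z : Subgroup G) (lam : Z →* ℂˣ) {H : Subgroup G} (χ : H → ℂ) : Prop :=
  ∀ (z : Z) (h : (z : G) ∈ H), χ ⟨z, h⟩ = χ 1 * lam z

/-- The number of the irreducible characters `χ` of `H` over `λ` with `χ (g ^ s) = χ g` for all
`g`. -/
def numOver (s : ℕ) (Z : Subgroup G) (lam : Z →* ℂˣ) (H : Subgroup G) : ℕ :=
  Nat.card {χ : H → ℂ // IsIrreducibleCharacter χ ∧ IsOver Z lam χ ∧ ∀ g, χ (g ^ s) = χ g}

/-- the weight of a pair -/
def cf (s : ℕ) (Z : Subgroup G) [Fintype Z] (lam : Z →* ℂˣ) (g n : G) : ℂ :=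
  ∑ z : Z, if n * ((z : G) * g ^ s) * n⁻¹ = g then ((lam z : ℂ)⁻¹) else 0

lemma sum_mem [Fintype G] (H : Subgroup G) [Fintype H] (F : G → ℂ) :
    ∑ g : H, F g = ∑ g : G, if g ∈ H then F g else 0 := by
  rw [← Finset.sum_filter]
  exact (Finset.sum_subtype (Finset.univ.filter (· ∈ H)) (by simp) F).symm

lemma key [Fintype G] [Fintype Z] (hZ : Z ≤ Subgroup.center G) (lam : Z →* ℂˣ) {s : ℕ}
    (hs : Nat.Coprime s (Nat.card G)) (H : Subgroup G) (hH : Z ≤ H) :
    (Nat.card Z : ℂ) * (Nat.card H : ℂ) * (numOver s Z lam H : ℂ) =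
      ∑ g : G, ∑ n : G, if g ∈ H ∧ n ∈ H then cf s Z lam g n else 0 := by
  have : Fintype H := Fintype.ofFinite H
  have h := count_over (H := H) (A := Z) (Subgroup.inclusion hH) (fun a h => by
    apply Subtype.ext
    exact (central_comm hZ a.2 (h : G)).symm) lam (s := s)
    (Nat.Coprime.coprime_dvd_right (Subgroup.card_subgroup_dvd_card H) hs)
  have e : Nat.card {χ : H → ℂ // IsIrreducibleCharacter χ ∧
      (∀ a, χ (Subgroup.inclusion hH a) = χ 1 * lam a) ∧ ∀ g, χ (g ^ s) = χ g} =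
      numOver s Z lam H := by
    unfold numOver
    refine Nat.card_congr (Equiv.subtypeEquivRight fun χ => ?_)
    refine and_congr_right fun _ => and_congr_left fun _ => ?_
    constructor
    · intro h1 z hz
      exact h1 z
    · intro h1 z
      exact h1 z (hH z.2)
  rw [e] at h
  rw [h]
  refine Eq.trans (b := ∑ g : H, ∑ n : H, cf s Z lam (g : G) (n : G)) ?_ ?_
  · refine Finset.sum_congr rfl fun g _ => Finset.sum_congr rfl fun n _ => ?_
    unfold cf
    refine Finset.sum_congr rfl fun a _ => ?_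
    by_cases h5 : n * (Subgroup.inclusion hH a * g ^ s) * n⁻¹ = g
    · have h6 : (n : G) * ((a : G) * (g : G) ^ s) * (n : G)⁻¹ = g := congrArg Subtype.val h5
      rw [if_pos h5, if_pos h6]
    · have h6 : ¬ (n : G) * ((a : G) * (g : G) ^ s) * (n : G)⁻¹ = g :=
        fun h6 => h5 (Subtype.ext h6)
      rw [if_neg h5, if_neg h6]
  have h3 : ∀ g : H, ∑ n : H, cf s Z lam (g : G) (n : G) =
      (fun g : G => ∑ n : G, if n ∈ H then cf s Z lam g n else 0) (g : G) := fun g =>
    sum_mem H (fun n => cf s Z lam (g : G) n)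
  rw [Finset.sum_congr rfl fun g _ => h3 g,
    sum_mem H (fun g : G => ∑ n : G, if n ∈ H then cf s Z lam g n else 0)]
  refine Finset.sum_congr rfl fun g _ => ?_
  by_cases hg : g ∈ H
  · rw [if_pos hg]
    refine Finset.sum_congr rfl fun n _ => ?_
    simp [hg]
  · rw [if_neg hg]
    symm
    apply Finset.sum_eq_zero
    intro n _
    rw [if_neg fun h => hg h.1]

lemma cf_conj [Fintype Z] (hZ : Z ≤ Subgroup.center G) (lam : Z →* ℂˣ) (s : ℕ) (x g n : G) :
    cf s Z lam (x * g * x⁻¹) (x * n * x⁻¹) = cf s Z lam g n := by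
  unfold cf
  refine Finset.sum_congr rfl fun z _ => ?_
  congr 1
  rw [conj_pow]
  have hc := central_comm hZ z.2 x
  have e : x * n * x⁻¹ * ((z : G) * (x * g ^ s * x⁻¹)) * (x * n * x⁻¹)⁻¹ =
      x * (n * ((z : G) * g ^ s) * n⁻¹) * x⁻¹ := by
    have e1 : (z : G) * (x * g ^ s * x⁻¹) = x * ((z : G) * g ^ s) * x⁻¹ := by
      calc (z : G) * (x * g ^ s * x⁻¹) = ((z : G) * x) * g ^ s * x⁻¹ := by group
        _ = (x * (z : G)) * g ^ s * x⁻¹ := by rw [hc]
        _ = x * ((z : G) * g ^ s) * x⁻¹ := by group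
    rw [e1]
    group
  rw [e]
  apply propext
  constructor
  · intro h
    exact mul_left_cancel (mul_right_cancel h)
  · intro h
    rw [h]

lemma numOver_conj [Fintype G] [Fintype Z] (hZ : Z ≤ Subgroup.center G) (lam : Z →* ℂˣ) {s : ℕ}
    (hs : Nat.Coprime s (Nat.card G)) (x : G) (H : Subgroup G) (hH : Z ≤ H) :
    numOver s Z lam (conjSub x H) = numOver s Z lam H := by
  have hH' : Z ≤ conjSub x H := by
    intro z hz
    rw [mem_conjSub]
    have e : x⁻¹ * z * x = z := by rw [central_comm hZ hz, inv_mul_cancel_right]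
    rw [e]
    exact hH hz
  have hcard : Nat.card (conjSub x H) = Nat.card H :=
    Nat.card_congr (Subgroup.equivMapOfInjective _ _ (MulAut.conj x).injective).toEquiv.symm
  have h1 := key hZ lam hs H hH
  have h2 := key hZ lam hs (conjSub x H) hH'
  rw [hcard] at h2
  have h3 : (∑ g : G, ∑ n : G, if g ∈ conjSub x H ∧ n ∈ conjSub x H then cf s Z lam g n else 0) =
      ∑ g : G, ∑ n : G, if g ∈ H ∧ n ∈ H then cf s Z lam g n else 0 := by
    symm
    refine Fintype.sum_equiv (MulAut.conj x).toEquiv _ _ fun g => ?_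
    refine Fintype.sum_equiv (MulAut.conj x).toEquiv _ _ fun n => ?_
    change _ = if x * g * x⁻¹ ∈ conjSub x H ∧ x * n * x⁻¹ ∈ conjSub x H then
      cf s Z lam (x * g * x⁻¹) (x * n * x⁻¹) else 0
    rw [cf_conj hZ, mem_conjSub, mem_conjSub]
    have e1 : x⁻¹ * (x * g * x⁻¹) * x = g := by group
    have e2 : x⁻¹ * (x * n * x⁻¹) * x = n := by group
    rw [e1, e2]
  rw [h3, ← h1] at h2
  have h4 : (Nat.card Z : ℂ) * (Nat.card H : ℂ) ≠ 0 := by
    apply mul_ne_zero
    · exact_mod_cast Nat.card_pos.ne'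
    · exact_mod_cast Nat.card_pos.ne'
  exact_mod_cast mul_left_cancel₀ h4 h2

lemma le_chainStabilizer (hZ : Z ≤ Subgroup.center G) (σ : Set (Subgroup G)) :
    Z ≤ chainStabilizer σ := by
  intro z hz
  rw [mem_chainStabilizer]
  intro P _
  ext x
  rw [mem_conjSub]
  have e : z⁻¹ * x * z = x := by
    have := central_comm hZ hz x
    rw [mul_assoc, this, ← mul_assoc, inv_mul_cancel, one_mul]
  rw [e]

theorem main [Fintype G] [Fintype Z] (hZ : Z ≤ Subgroup.center G) (lam : Z →* ℂˣ) {s : ℕ}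
    (hs : Nat.Coprime s (Nat.card G)) :
    (Nat.card Z : ℂ) * (Nat.card G : ℂ) *
      ((zSum p Z (fun H => (numOver s Z lam H : ℤ)) : ℤ) : ℂ) =
      ∑ g : G, ∑ n : G, cf s Z lam g n * (zW p Z ({g, n} : Set G) : ℂ) := by
  have : Fintype {σ : Set (Subgroup G) // IsZChain p Z σ} := Fintype.ofFinite _
  have h1 := card_mul_zSum (p := p) hZ (fun H => (numOver s Z lam H : ℤ)) (fun g σ _ => by
    change (numOver s Z lam _ : ℤ) = (numOver s Z lam _ : ℤ)
    rw [numOver_conj hZ lam hs g _ (le_chainStabilizer hZ σ)])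
  have h2 := congrArg (fun k : ℤ => (Nat.card Z : ℂ) * (k : ℂ)) h1
  push_cast at h2
  rw [← mul_assoc] at h2
  rw [h2, Finset.mul_sum]
  have h3 : ∀ σ : {σ : Set (Subgroup G) // IsZChain p Z σ},
      (Nat.card Z : ℂ) * ((-1 : ℂ) ^ σ.1.ncard * ((Nat.card (chainStabilizer σ.1) : ℂ) *
        (numOver s Z lam (chainStabilizer σ.1) : ℂ))) =
      ∑ g : G, ∑ n : G, cf s Z lam g n * ((-1 : ℂ) ^ σ.1.ncard *
        (if ∀ P ∈ σ.1, ∀ x ∈ ({g, n} : Set G), conjSub x P = P then 1 else 0)) := by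
    intro σ
    have h4 := key hZ lam hs (chainStabilizer σ.1) (le_chainStabilizer hZ σ.1)
    calc (Nat.card Z : ℂ) * ((-1 : ℂ) ^ σ.1.ncard * ((Nat.card (chainStabilizer σ.1) : ℂ) *
        (numOver s Z lam (chainStabilizer σ.1) : ℂ))) =
        (-1 : ℂ) ^ σ.1.ncard * ((Nat.card Z : ℂ) * (Nat.card (chainStabilizer σ.1) : ℂ) *
          (numOver s Z lam (chainStabilizer σ.1) : ℂ)) := by ring
      _ = _ := by
        rw [h4, Finset.mul_sum]
        refine Finset.sum_congr rfl fun g _ => ?_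
        rw [Finset.mul_sum]
        refine Finset.sum_congr rfl fun n _ => ?_
        have h5 : (g ∈ chainStabilizer σ.1 ∧ n ∈ chainStabilizer σ.1) ↔
            ∀ P ∈ σ.1, ∀ x ∈ ({g, n} : Set G), conjSub x P = P := by
          rw [mem_chainStabilizer, mem_chainStabilizer]
          constructor
          · rintro ⟨h6, h7⟩ P hP x (rfl | hx)
            · exact h6 P hP
            · rw [Set.mem_singleton_iff] at hx
              rw [hx]
              exact h7 P hP
          · intro h6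
            exact ⟨fun P hP => h6 P hP g (by simp), fun P hP => h6 P hP n (by simp)⟩
        by_cases h8 : g ∈ chainStabilizer σ.1 ∧ n ∈ chainStabilizer σ.1
        · rw [if_pos h8, if_pos (h5.1 h8)]
          ring
        · rw [if_neg h8, if_neg fun h => h8 (h5.2 h)]
          ring
  rw [Finset.sum_congr rfl fun σ _ => h3 σ, Finset.sum_comm]
  refine Finset.sum_congr rfl fun g _ => ?_
  rw [Finset.sum_comm]
  refine Finset.sum_congr rfl fun n _ => ?_
  rw [← Finset.mul_sum]
  congr 1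
  unfold zW
  rw [finsum_eq_sum_of_fintype]
  push_cast
  rfl

/-! ### Cancellation -/

/-- the elements of `Z` of `p`-power order -/
def pPart (p : ℕ) (hZ : Z ≤ Subgroup.center G) : Subgroup G where
  carrier := {z | z ∈ Z ∧ ∃ k : ℕ, z ^ p ^ k = 1}
  one_mem' := ⟨Z.one_mem, 0, by simp⟩
  mul_mem' := by
    rintro a b ⟨ha, k, hk⟩ ⟨hb, l, hl⟩
    refine ⟨Z.mul_mem ha hb, k + l, ?_⟩
    have hc : Commute a b := central_comm hZ hb a
    rw [hc.mul_pow, pow_add, pow_mul a, hk, one_pow, one_mul, mul_comm, pow_mul b, hl, one_pow]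
  inv_mem' := by
    rintro a ⟨ha, k, hk⟩
    exact ⟨Z.inv_mem ha, k, by rw [inv_pow, hk, inv_one]⟩

lemma mem_pPart (hZ : Z ≤ Subgroup.center G) {z : G} :
    z ∈ pPart p hZ ↔ z ∈ Z ∧ ∃ k : ℕ, z ^ p ^ k = 1 := Iff.rfl

lemma pPart_le (hZ : Z ≤ Subgroup.center G) : pPart p hZ ≤ Subgroup.center G :=
  fun _ hz => hZ hz.1

theorem W_zero [Fact p.Prime] [Finite G] (hZ : Z ≤ Subgroup.center G) {s : ℕ}
    (hs : Nat.Coprime s (Nat.card G)) {e v : ℕ} (he : Nat.card G ∣ e * p ^ v) {g n z : G}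
    (hz : z ∈ Z) (h : n * (z * g ^ s) * n⁻¹ = g) (hg : g ^ e ∉ Z) :
    zW p Z ({g, n} : Set G) = 0 := by
  have hpow : ∀ x : G, (x ^ e) ^ p ^ v = 1 := by
    intro x
    rw [← pow_mul]
    exact orderOf_dvd_iff_pow_eq_one.1 ((orderOf_dvd_natCard x).trans he)
  have hnorm : (pPart p hZ).Normal := ⟨fun y hy x => by
    have e1 : x * y * x⁻¹ = y := by
      rw [central_comm hZ hy.1 x, mul_inv_cancel_right]
    rw [e1]
    exact hy⟩
  have hUp : IsPGroup p (Subgroup.zpowers (g ^ e) ⊔ pPart p hZ : Subgroup G) := by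
    apply IsPGroup.to_sup_of_normal_right
    · rintro ⟨x, hx⟩
      obtain ⟨i, rfl⟩ := Subgroup.mem_zpowers_iff.1 hx
      refine ⟨v, ?_⟩
      apply Subtype.ext
      change ((g ^ e) ^ i) ^ p ^ v = 1
      rw [← zpow_natCast, ← zpow_mul, mul_comm, zpow_mul, zpow_natCast, hpow, one_zpow]
    · rintro ⟨x, hx, k, hk⟩
      exact ⟨k, Subtype.ext hk⟩
  have hyU : g ^ e ∈ (Subgroup.zpowers (g ^ e) ⊔ pPart p hZ : Subgroup G) :=
    Subgroup.mem_sup_left (Subgroup.mem_zpowers _)
  have hDU : ∀ y ∈ Z, (∃ k : ℕ, y ^ p ^ k = 1) →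
      y ∈ (Subgroup.zpowers (g ^ e) ⊔ pPart p hZ : Subgroup G) :=
    fun y hy hk => Subgroup.mem_sup_right ⟨hy, hk⟩
  have hconj : ∀ x : G, x * g ^ e * x⁻¹ ∈ (Subgroup.zpowers (g ^ e) ⊔ pPart p hZ : Subgroup G) →
      conjSub x (Subgroup.zpowers (g ^ e) ⊔ pPart p hZ) = Subgroup.zpowers (g ^ e) ⊔ pPart p hZ := by
    intro x hx
    have hle : conjSub x (Subgroup.zpowers (g ^ e) ⊔ pPart p hZ) ≤
        Subgroup.zpowers (g ^ e) ⊔ pPart p hZ := by
      have e1 : conjSub x (Subgroup.zpowers (g ^ e) ⊔ pPart p hZ) =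
          conjSub x (Subgroup.zpowers (g ^ e)) ⊔ conjSub x (pPart p hZ) := Subgroup.map_sup _ _ _
      rw [e1]
      apply sup_le
      · unfold conjSub
        rw [MonoidHom.map_zpowers, Subgroup.zpowers_le]
        exact hx
      · refine le_trans ?_ (le_sup_right (a := Subgroup.zpowers (g ^ e)))
        rintro _ ⟨y, hy, rfl⟩
        exact hnorm.conj_mem y hy x
    have hcard : Nat.card (conjSub x (Subgroup.zpowers (g ^ e) ⊔ pPart p hZ)) =
        Nat.card (Subgroup.zpowers (g ^ e) ⊔ pPart p hZ : Subgroup G) :=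
      Nat.card_congr (Subgroup.equivMapOfInjective _ _ (MulAut.conj x).injective).toEquiv.symm
    exact Subgroup.eq_of_le_of_card_ge hle hcard.ge
  refine zW_eq_zero (U := Subgroup.zpowers (g ^ e) ⊔ pPart p hZ) hUp
    (fun h1 => hg (h1 hyU)) hDU ?_ ?_
  · intro P hP
    apply sup_le
    · rw [Subgroup.zpowers_le]
      apply Subgroup.pow_mem
      exact conjSub_eq_iff.1 (hP g (by simp))
    · exact (pPart_le hZ).trans (Subgroup.center_le_normalizer _)
  · rintro x (rfl | hx)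
    · apply hconj
      have e1 : x * x ^ e * x⁻¹ = x ^ e := by
        rw [← pow_succ', pow_succ, mul_inv_cancel_right]
      rw [e1]
      exact hyU
    · rw [Set.mem_singleton_iff] at hx
      subst hx
      apply hconj
      -- the `e`-th power of the relation
      have h1 : x * (z ^ e * (g ^ e) ^ s) * x⁻¹ = g ^ e := by
        have hc : Commute z (g ^ s) := (central_comm hZ hz (g ^ s)).symm
        have h2 : (z * g ^ s) ^ e = z ^ e * (g ^ e) ^ s := by
          rw [hc.mul_pow, ← pow_mul, ← pow_mul, mul_comm s e]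
        rw [← h2, ← conj_pow, h]
      have hze : z ^ e ∈ pPart p hZ := ⟨Z.pow_mem hz e, v, hpow z⟩
      have h3 : x * (g ^ e) ^ s * x⁻¹ = (z ^ e)⁻¹ * g ^ e := by
        have hc := central_comm hZ hze.1 x
        have h4 : x * (z ^ e * (g ^ e) ^ s) * x⁻¹ = z ^ e * (x * (g ^ e) ^ s * x⁻¹) := by
          calc x * (z ^ e * (g ^ e) ^ s) * x⁻¹ = (x * z ^ e) * (g ^ e) ^ s * x⁻¹ := by group
            _ = (z ^ e * x) * (g ^ e) ^ s * x⁻¹ := by rw [hc]
            _ = z ^ e * (x * (g ^ e) ^ s * x⁻¹) := by group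
        rw [h4] at h1
        exact eq_inv_mul_of_mul_eq h1
      have h5 : x * (g ^ e) ^ s * x⁻¹ ∈ (Subgroup.zpowers (g ^ e) ⊔ pPart p hZ : Subgroup G) := by
        rw [h3]
        exact Subgroup.mul_mem _ (Subgroup.inv_mem _ (Subgroup.mem_sup_right hze)) hyU
      obtain ⟨r, hr⟩ := exists_pow_eq_self_of_coprime (x := g ^ e)
        (Nat.Coprime.coprime_dvd_right (orderOf_dvd_natCard (g ^ e)) hs)
      have h6 : x * g ^ e * x⁻¹ = (x * (g ^ e) ^ s * x⁻¹) ^ r := by
        rw [conj_pow, hr]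
      rw [h6]
      exact Subgroup.pow_mem _ h5 r

end Pool.Agent.V1140.DP
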