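import Pool.Agent.V1140.DP.Central

/-!
# The number of the linear characters of a central subgroup
-/

set_option autoImplicit false

open Pool.Agent.Y63.KR Pool.Agent.Y63.AWC Pool.Agent.V1140.DC

noncomputable section

namespace Pool.Agent.V1140.DP

variable {p : ℕ} {G : Type} [Group G] {Z : Subgroup G}

lemma numLin_eq [Finite G] (hZ : Z ≤ Subgroup.center G) : numLin Z = Nat.card Z := by
  let _ : CommGroup Z := { (inferInstance : Group Z) with
    mul_comm := fun a b => Subtype.ext (central_comm hZ b.2 (a : G)) }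
  have hN : NeZero (Monoid.exponent Z) := ⟨Monoid.exponent_ne_zero_of_finite⟩
  exact CommGroup.card_monoidHom_of_hasEnoughRootsOfUnity Z ℂ

lemma numLinPow_eq [Finite G] (hZ : Z ≤ Subgroup.center G) (n : ℕ) :
    numLinPow n Z = Nat.card {z : Z // z ^ n = 1} := by
  let _ : CommGroup Z := { (inferInstance : Group Z) with
    mul_comm := fun a b => Subtype.ext (central_comm hZ b.2 (a : G)) }
  have hN : NeZero (Monoid.exponent Z) := ⟨Monoid.exponent_ne_zero_of_finite⟩
  obtain ⟨e⟩ := CommGroup.monoidHom_mulEquiv_of_hasEnoughRootsOfUnity Z ℂ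
  unfold numLinPow
  refine Nat.card_congr (Equiv.subtypeEquiv e.toEquiv fun lam => ?_)
  change lam ^ n = 1 ↔ (e lam) ^ n = 1
  rw [← map_pow, map_eq_one_iff e e.injective]

theorem total' [Fact p.Prime] [Finite G] (hZ : Z ≤ Subgroup.center G) (hp : IsPGroup p Z) :
    zSum p Z (fun H => (numIrrChar H : ℤ)) =
      (Nat.card Z : ℤ) * zSum p Z (fun H => (numIrrOver Z 1 H : ℤ)) := by
  rw [total hZ hp, numLin_eq hZ]

theorem rational' [Fact p.Prime] [Finite G] (hZ : Z ≤ Subgroup.center G) (hp : IsPGroup p Z)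
    {a : ℕ} (ha : p = 2 → 2 ≤ a) :
    zSum p Z (fun H => (numRationalChar p a H : ℤ)) =
      (Nat.card {z : Z // z ^ p ^ a = 1} : ℤ) * zSum p Z (fun H => (numIrrOver Z 1 H : ℤ)) := by
  rw [rational hZ hp ha, numLinPow_eq hZ]

theorem level' [Fact p.Prime] [Finite G] (hZ : Z ≤ Subgroup.center G) (hp : IsPGroup p Z)
    {a : ℕ} (ha : p = 2 → 3 ≤ a) :
    zSum p Z (fun H => (numLevelChar p a H : ℤ)) =
      ((Nat.card {z : Z // z ^ p ^ a = 1} : ℤ) - (Nat.card {z : Z // z ^ p ^ (a - 1) = 1} : ℤ)) *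
        zSum p Z (fun H => (numIrrOver Z 1 H : ℤ)) := by
  have e : (fun H : Subgroup G => (numLevelChar p a H : ℤ)) =
      fun H : Subgroup G => (numRationalChar p a H : ℤ) - (numRationalChar p (a - 1) H : ℤ) :=
    funext fun H => by
      rw [numLevelChar_add (p := p) (a := a) H]
      push_cast
      ring
  rw [e, zSum_sub, rational' hZ hp (fun h => by have := ha h; omega),
    rational' hZ hp (fun h => by have := ha h; omega)]
  ring

end Pool.Agent.V1140.DP
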