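import Pool.Agent.V1140.DP.Count

/-!
# Characters over a central character: independence of the exponent and levels of rationality
-/

set_option autoImplicit false

open scoped BigOperators Classical
open Pool.Agent.Y63.KR Pool.Agent.Y63.AWC Pool.Agent.V1140.DC

set_option linter.unusedSectionVars false

noncomputable section

namespace Pool.Agent.V1140.DP

variable {p : ℕ} {G : Type} [Group G] {Z : Subgroup G}

/-- the idempotent exponent -/
lemma exists_idem (hp : p.Prime) {N : ℕ} (hN : N ≠ 0) : ∃ e : ℕ,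
    e ≡ 1 [MOD p ^ N.factorization p] ∧ N / p ^ N.factorization p ∣ e ∧
      N ∣ e * p ^ N.factorization p := by
  have hmv : p ^ N.factorization p * (N / p ^ N.factorization p) = N :=
    Nat.ordProj_mul_ordCompl_eq_self N p
  have hcop : Nat.Coprime (p ^ N.factorization p) (N / p ^ N.factorization p) :=
    Nat.Coprime.pow_left _ ((Nat.Prime.coprime_iff_not_dvd hp).mpr (Nat.not_dvd_ordCompl hp hN))
  obtain ⟨e, h1, h2⟩ := Nat.chineseRemainder hcop 1 0
  have h3 : N / p ^ N.factorization p ∣ e := (Nat.modEq_zero_iff_dvd).1 h2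
  refine ⟨e, h1, h3, ?_⟩
  have h4 := mul_dvd_mul_left (p ^ N.factorization p) h3
  rw [hmv, mul_comm] at h4
  exact h4

lemma modEq_of {N p a b : ℕ} (hp : p.Prime) (hN : N ≠ 0)
    (h1 : a ≡ b [MOD p ^ N.factorization p]) (h2 : a ≡ b [MOD N / p ^ N.factorization p]) :
    a ≡ b [MOD N] := by
  have hmv : p ^ N.factorization p * (N / p ^ N.factorization p) = N :=
    Nat.ordProj_mul_ordCompl_eq_self N p
  rw [← hmv, ← Nat.modEq_and_modEq_iff_modEq_mul]
  · exact ⟨h1, h2⟩
  · exact Nat.Coprime.pow_left _ ((Nat.Prime.coprime_iff_not_dvd hp).mpr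
      (Nat.not_dvd_ordCompl hp hN))

theorem cf_eq [Fact p.Prime] [Fintype G] [Fintype Z] (hZ : Z ≤ Subgroup.center G)
    {lam mu : Z →* ℂˣ} (hlm : ∀ z : Z, ¬ p ∣ orderOf z → lam z = mu z) {s t : ℕ}
    (hst : s ≡ t [MOD Nat.card G / p ^ (Nat.card G).factorization p])
    (hls : ∀ z : Z, (∃ k : ℕ, z ^ p ^ k = 1) → lam z ^ s = lam z)
    (hmt : ∀ z : Z, (∃ k : ℕ, z ^ p ^ k = 1) → mu z ^ t = mu z) {g : G} (n : G) {e : ℕ}
    (he1 : e ≡ 1 [MOD p ^ (Nat.card G).factorization p])
    (he2 : Nat.card G / p ^ (Nat.card G).factorization p ∣ e)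
    (he3 : Nat.card G ∣ e * p ^ (Nat.card G).factorization p) (hg : g ^ e ∈ Z) :
    cf s Z lam g n = cf t Z mu g n := by
  have hp : p.Prime := Fact.out
  have hN : Nat.card G ≠ 0 := Nat.card_pos.ne'
  have hpw : ∀ (x : G) {a b : ℕ}, a ≡ b [MOD Nat.card G] → x ^ a = x ^ b := fun x a b h =>
    pow_eq_pow_iff_modEq.mpr (h.of_dvd (orderOf_dvd_natCard x))
  have he0 : e ≡ 0 [MOD Nat.card G / p ^ (Nat.card G).factorization p] :=
    Nat.modEq_zero_iff_dvd.2 he2
  obtain ⟨x, hx⟩ : ∃ x : Z, (x : G) = g ^ e := ⟨⟨g ^ e, hg⟩, rfl⟩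
  have hxk : ∃ k : ℕ, x ^ p ^ k = 1 := ⟨(Nat.card G).factorization p, by
    apply Subtype.ext
    rw [Subgroup.coe_pow, hx, ← pow_mul]
    exact orderOf_dvd_iff_pow_eq_one.1 ((orderOf_dvd_natCard g).trans he3)⟩
  have hxe : x ^ e = x := by
    apply Subtype.ext
    rw [Subgroup.coe_pow, hx, ← pow_mul]
    apply hpw
    apply modEq_of hp hN
    · have := he1.mul he1
      rw [one_mul] at this
      exact this.trans he1.symm
    · have := he0.mul he0
      rw [zero_mul] at this
      exact this.trans he0.symm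
  have hg1 : (x : G) ^ s * g ^ t = (x : G) ^ t * g ^ s := by
    rw [hx, ← pow_mul, ← pow_mul, ← pow_add, ← pow_add]
    apply hpw
    apply modEq_of hp hN
    · have h1 : e * s + t ≡ 1 * s + t [MOD p ^ (Nat.card G).factorization p] :=
        (he1.mul_right s).add_right t
      have h2 : e * t + s ≡ 1 * t + s [MOD p ^ (Nat.card G).factorization p] :=
        (he1.mul_right t).add_right s
      refine h1.trans (Nat.ModEq.trans ?_ h2.symm)
      rw [one_mul, one_mul, add_comm]
    · have h1 := (he0.mul_right s).add_right t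
      have h2 := (he0.mul_right t).add_right s
      rw [zero_mul, zero_add] at h1 h2
      exact h1.trans (hst.symm.trans h2.symm)
  unfold cf
  refine Fintype.sum_equiv (Equiv.mulRight (x ^ s * (x ^ t)⁻¹)) _ _ fun z => ?_
  rw [Equiv.coe_mulRight]
  have hg2 : ((z * (x ^ s * (x ^ t)⁻¹) : Z) : G) * g ^ t = (z : G) * g ^ s := by
    have hc : (x : G) ^ s * ((x : G) ^ t)⁻¹ = ((x : G) ^ t)⁻¹ * (x : G) ^ s := by
      have hc1 : Commute ((x : G) ^ s) ((x : G) ^ t) := (Commute.refl (x : G)).pow_pow s t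
      exact hc1.inv_right.eq
    rw [Subgroup.coe_mul, Subgroup.coe_mul, Subgroup.coe_inv, Subgroup.coe_pow, Subgroup.coe_pow,
      hc, mul_assoc, mul_assoc, hg1, inv_mul_cancel_left]
  rw [hg2]
  by_cases h : n * ((z : G) * g ^ s) * n⁻¹ = g
  · rw [if_pos h, if_pos h]
    congr 2
    -- the `p'`-element
    have hwe : (z * (x ^ s * x⁻¹)) ^ e = 1 := by
      have h1 : n * ((z : G) ^ e * (x : G) ^ s) * n⁻¹ = (x : G) := by
        have hc : Commute (z : G) (g ^ s) := (central_comm hZ z.2 (g ^ s)).symm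
        have h2 : ((z : G) * g ^ s) ^ e = (z : G) ^ e * (x : G) ^ s := by
          rw [hc.mul_pow, hx, ← pow_mul, ← pow_mul, mul_comm s e]
        rw [← h2, ← conj_pow, h, hx]
      have h3 : (z : G) ^ e * (x : G) ^ s = x := by
        have hzx : (z : G) ^ e * (x : G) ^ s ∈ Z :=
          Z.mul_mem (Z.pow_mem z.2 e) (Z.pow_mem x.2 s)
        rw [central_comm hZ hzx n, mul_inv_cancel_right] at h1
        exact h1
      have h4 : z ^ e * x ^ s = x := Subtype.ext h3
      have hcz : ∀ a b : Z, Commute a b := fun a b => Subtype.ext (central_comm hZ b.2 (a : G))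
      rw [(hcz z (x ^ s * x⁻¹)).mul_pow, (hcz (x ^ s) x⁻¹).mul_pow, inv_pow, hxe, ← pow_mul,
        mul_comm s e, pow_mul, hxe, ← mul_assoc, h4, mul_inv_cancel]
    have hw : ¬ p ∣ orderOf (z * (x ^ s * x⁻¹)) := by
      intro h1
      have h2 : p ∣ Nat.card G :=
        (h1.trans (orderOf_dvd_natCard _)).trans (Subgroup.card_subgroup_dvd_card Z)
      have h3 : (Nat.card G).factorization p ≠ 0 := by
        have := hp.factorization_pos_of_dvd hN h2
        omega
      have h4 : p ∣ e := h1.trans (orderOf_dvd_iff_pow_eq_one.2 hwe)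
      have h5 : e ≡ 1 [MOD p] := he1.of_dvd (dvd_pow_self p h3)
      have h6 : p ∣ 1 := (h5.dvd_iff (dvd_refl p)).1 h4
      exact hp.one_lt.ne' (Nat.dvd_one.1 h6)
    have h1 : lam z = lam (z * (x ^ s * x⁻¹)) := by
      rw [map_mul, map_mul, map_pow, map_inv, hls x hxk, mul_inv_cancel, mul_one]
    have h2 : mu (z * (x ^ s * (x ^ t)⁻¹)) = mu (z * (x ^ s * x⁻¹)) := by
      rw [map_mul, map_mul, map_mul, map_mul, map_inv, map_inv, map_pow mu x t, hmt x hxk]
    rw [h1, h2, hlm _ hw]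
  · rw [if_neg h, if_neg h]

/-- **The alternating sum depends only on the `p'`-parts of the exponent and of `λ`.** -/
theorem master [Fact p.Prime] [Finite G] (hZ : Z ≤ Subgroup.center G)
    {lam mu : Z →* ℂˣ} (hlm : ∀ z : Z, ¬ p ∣ orderOf z → lam z = mu z) {s t : ℕ}
    (hs : Nat.Coprime s (Nat.card G)) (ht : Nat.Coprime t (Nat.card G))
    (hst : s ≡ t [MOD Nat.card G / p ^ (Nat.card G).factorization p])
    (hls : ∀ z : Z, (∃ k : ℕ, z ^ p ^ k = 1) → lam z ^ s = lam z)
    (hmt : ∀ z : Z, (∃ k : ℕ, z ^ p ^ k = 1) → mu z ^ t = mu z) :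
    zSum p Z (fun H => (numOver s Z lam H : ℤ)) = zSum p Z (fun H => (numOver t Z mu H : ℤ)) := by
  have hp : p.Prime := Fact.out
  have : Fintype G := Fintype.ofFinite G
  have : Fintype Z := Fintype.ofFinite Z
  obtain ⟨e, he1, he2, he3⟩ := exists_idem hp (N := Nat.card G) Nat.card_pos.ne'
  have h1 := main (p := p) hZ lam hs
  have h2 := main (p := p) hZ mu ht
  have hzero : ∀ (r : ℕ) (nu : Z →* ℂˣ), Nat.Coprime r (Nat.card G) → ∀ g n : G, g ^ e ∉ Z →
      cf r Z nu g n * (zW p Z ({g, n} : Set G) : ℂ) = 0 := by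
    intro r nu hr g n hg
    by_cases h : ∃ z : Z, n * ((z : G) * g ^ r) * n⁻¹ = g
    · obtain ⟨z, hz⟩ := h
      rw [W_zero hZ hr he3 z.2 hz hg, Int.cast_zero, mul_zero]
    · have h3 : cf r Z nu g n = 0 := by
        unfold cf
        apply Finset.sum_eq_zero
        intro z _
        rw [if_neg fun hz => h ⟨z, hz⟩]
      rw [h3, zero_mul]
  have h3 : ∑ g : G, ∑ n : G, cf s Z lam g n * (zW p Z ({g, n} : Set G) : ℂ) =
      ∑ g : G, ∑ n : G, cf t Z mu g n * (zW p Z ({g, n} : Set G) : ℂ) := by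
    refine Finset.sum_congr rfl fun g _ => Finset.sum_congr rfl fun n _ => ?_
    by_cases hg : g ^ e ∈ Z
    · rw [cf_eq hZ hlm hst hls hmt n he1 he2 he3 hg]
    · rw [hzero s lam hs g n hg, hzero t mu ht g n hg]
  rw [h3, ← h2] at h1
  have h4 : (Nat.card Z : ℂ) * (Nat.card G : ℂ) ≠ 0 := by
    apply mul_ne_zero
    · exact_mod_cast Nat.card_pos.ne'
    · exact_mod_cast Nat.card_pos.ne'
  exact_mod_cast mul_left_cancel₀ h4 h1

/-! ### Levels of rationality -/

/-- The number of the irreducible characters of `H` over `λ`. -/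
def numIrrOver (Z : Subgroup G) (lam : Z →* ℂˣ) (H : Subgroup G) : ℕ :=
  Nat.card {χ : H → ℂ // IsIrreducibleCharacter χ ∧ IsOver Z lam χ}

/-- The number of the `p^a`-rational irreducible characters of `H` over `λ`. -/
def numRationalOver (p a : ℕ) (Z : Subgroup G) (lam : Z →* ℂˣ) (H : Subgroup G) : ℕ :=
  Nat.card {χ : H → ℂ // IsIrreducibleCharacter χ ∧ IsOver Z lam χ ∧ IsRationalChar p a χ}

/-- The number of the irreducible characters of `H` over `λ` which are `p^a`-rational and not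
`p^(a-1)`-rational. -/
def numLevelOver (p a : ℕ) (Z : Subgroup G) (lam : Z →* ℂˣ) (H : Subgroup G) : ℕ :=
  Nat.card {χ : H → ℂ // IsIrreducibleCharacter χ ∧ IsOver Z lam χ ∧ IsRationalChar p a χ ∧
    ¬ IsRationalChar p (a - 1) χ}

lemma numIrrOver_eq (lam : Z →* ℂˣ) (H : Subgroup G) : numIrrOver Z lam H = numOver 1 Z lam H := by
  unfold numIrrOver numOver
  refine Nat.card_congr (Equiv.subtypeEquivRight fun χ => ?_)
  constructor
  · rintro ⟨h1, h2⟩
    exact ⟨h1, h2, fun g => by rw [pow_one]⟩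
  · rintro ⟨h1, h2, -⟩
    exact ⟨h1, h2⟩

/-- one exponent detects the `p^a`-rational characters of all subgroups -/
theorem exists_detect [Fact p.Prime] [Finite G] {a : ℕ} (ha : p = 2 → 2 ≤ a) :
    ∃ t : ℕ, Nat.Coprime t (Nat.card G) ∧ t ≡ 1 [MOD p ^ a] ∧
      t ≡ 1 [MOD Nat.card G / p ^ (Nat.card G).factorization p] ∧
      ∀ (H : Subgroup G) (χ : H → ℂ), IsRationalChar p a χ ↔ ∀ g, χ (g ^ t) = χ g := by
  have hp : p.Prime := Fact.out
  have hN0 : Nat.card G ≠ 0 := Nat.card_pos.ne'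
  obtain ⟨t, ht1, ht2, ht3, ht4⟩ := exists_exponent (p := p) ha ((Nat.card G).factorization p)
    (Nat.card G / p ^ (Nat.card G).factorization p) (Nat.not_dvd_ordCompl hp hN0)
  have hmv : p ^ (Nat.card G).factorization p *
      (Nat.card G / p ^ (Nat.card G).factorization p) = Nat.card G :=
    Nat.ordProj_mul_ordCompl_eq_self _ p
  have hcopm : Nat.Coprime t (Nat.card G / p ^ (Nat.card G).factorization p) := by
    have h1 := ht3.gcd_eq
    rw [Nat.gcd_one_left] at h1
    exact h1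
  have hcopp : Nat.Coprime t (p ^ (Nat.card G).factorization p) :=
    Nat.Coprime.pow_right _ ((Nat.Prime.coprime_iff_not_dvd hp).mpr ht1).symm
  refine ⟨t, ?_, ht2, ht3, fun H χ => ?_⟩
  · rw [← hmv]
    exact Nat.Coprime.mul_right hcopp hcopm
  · have hH0 : Nat.card H ≠ 0 := Nat.card_pos.ne'
    have hdvd : Nat.card H ∣ Nat.card G := Subgroup.card_subgroup_dvd_card H
    have hd1 : Nat.card H / p ^ (Nat.card H).factorization p ∣
        Nat.card G / p ^ (Nat.card G).factorization p := Nat.ordCompl_dvd_ordCompl_of_dvd hdvd p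
    have hd2 : p ^ (Nat.card H).factorization p ∣ p ^ (Nat.card G).factorization p := by
      apply pow_dvd_pow
      exact (Nat.factorization_le_iff_dvd hH0 hN0).mpr hdvd p
    constructor
    · intro h
      exact h t ht1 ht2 (ht3.of_dvd hd1)
    · intro h s hs1 hs2 hs3 g
      obtain ⟨j, hj⟩ := ht4 s hs1 hs2
      have h1 : g ^ s = g ^ t ^ j := by
        have h2 : s ≡ t ^ j [MOD Nat.card H] := by
          apply modEq_of hp hH0 (hj.of_dvd hd2)
          have h3 := (ht3.of_dvd hd1).pow j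
          rw [one_pow] at h3
          exact hs3.trans h3.symm
        exact pow_eq_pow_iff_modEq.mpr (h2.of_dvd (orderOf_dvd_natCard g))
      rw [h1]
      exact char_pow_pow h j g

theorem sum_rationalOver [Fact p.Prime] [Finite G] (hZ : Z ≤ Subgroup.center G) (lam : Z →* ℂˣ)
    {a : ℕ} (ha : p = 2 → 2 ≤ a)
    (hl : ∀ z : Z, (∃ k : ℕ, z ^ p ^ k = 1) → lam z ^ p ^ a = 1) :
    zSum p Z (fun H => (numRationalOver p a Z lam H : ℤ)) =
      zSum p Z (fun H => (numIrrOver Z lam H : ℤ)) := by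
  obtain ⟨t, ht1, ht2, ht3, ht4⟩ := exists_detect (p := p) (G := G) ha
  have e1 : (fun H : Subgroup G => (numRationalOver p a Z lam H : ℤ)) =
      fun H : Subgroup G => (numOver t Z lam H : ℤ) := funext fun H => by
    unfold numRationalOver numOver
    congr 1
    refine Nat.card_congr (Equiv.subtypeEquivRight fun χ => ?_)
    rw [ht4 H χ]
  have e2 : (fun H : Subgroup G => (numIrrOver Z lam H : ℤ)) =
      fun H : Subgroup G => (numOver 1 Z lam H : ℤ) := funext fun H => by
    rw [numIrrOver_eq]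
  rw [e1, e2]
  refine master hZ (fun _ _ => rfl) ht1 (Nat.coprime_one_left _) ht3 (fun z hz => ?_)
    (fun z _ => pow_one _)
  have h1 : orderOf (lam z) ∣ p ^ a := orderOf_dvd_iff_pow_eq_one.2 (hl z hz)
  have h2 : lam z ^ t = lam z ^ 1 := pow_eq_pow_iff_modEq.mpr (ht2.of_dvd h1)
  rw [h2, pow_one]

lemma zSum_sub [Finite G] (f g : Subgroup G → ℤ) :
    zSum p Z (fun H => f H - g H) = zSum p Z f - zSum p Z g := by
  have : Fintype (Quotient (zchainSetoid p Z)) := Fintype.ofFinite _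
  unfold zSum
  rw [finsum_eq_sum_of_fintype, finsum_eq_sum_of_fintype, finsum_eq_sum_of_fintype,
    ← Finset.sum_sub_distrib]
  refine Finset.sum_congr rfl fun c _ => ?_
  ring

lemma numLevelOver_add [Finite G] {a : ℕ} (lam : Z →* ℂˣ) (H : Subgroup G) :
    numRationalOver p a Z lam H = numLevelOver p a Z lam H + numRationalOver p (a - 1) Z lam H := by
  unfold numLevelOver numRationalOver
  have f1 := finite_irr H (fun χ => IsOver Z lam χ ∧ IsRationalChar p a χ ∧
    ¬ IsRationalChar p (a - 1) χ)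
  have f2 := finite_irr H (fun χ => IsOver Z lam χ ∧ IsRationalChar p (a - 1) χ)
  rw [← Nat.card_sum]
  refine Nat.card_congr ?_
  have h1 : ∀ χ : H → ℂ, (IsIrreducibleCharacter χ ∧ IsOver Z lam χ ∧ IsRationalChar p a χ) ↔
      ((IsIrreducibleCharacter χ ∧ IsOver Z lam χ ∧ IsRationalChar p a χ ∧
        ¬ IsRationalChar p (a - 1) χ) ∨
        (IsIrreducibleCharacter χ ∧ IsOver Z lam χ ∧ IsRationalChar p (a - 1) χ)) := by
    intro χ
    constructor
    · rintro ⟨h1, h0, h2⟩
      by_cases h3 : IsRationalChar p (a - 1) χ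
      · exact Or.inr ⟨h1, h0, h3⟩
      · exact Or.inl ⟨h1, h0, h2, h3⟩
    · rintro (⟨h1, h0, h2, -⟩ | ⟨h1, h0, h2⟩)
      · exact ⟨h1, h0, h2⟩
      · exact ⟨h1, h0, isRationalChar_mono (Nat.sub_le a 1) h2⟩
  refine (Equiv.subtypeEquivRight h1).trans (subtypeOrEquiv _ _ ?_)
  rw [Pi.disjoint_iff]
  intro χ
  rw [Prop.disjoint_iff]
  rintro ⟨⟨-, -, -, h2⟩, -, -, h3⟩
  exact h2 h3

theorem sum_levelOver [Fact p.Prime] [Finite G] (hZ : Z ≤ Subgroup.center G) (lam : Z →* ℂˣ)
    {a : ℕ} (ha : p = 2 → 3 ≤ a)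
    (hl : ∀ z : Z, (∃ k : ℕ, z ^ p ^ k = 1) → lam z ^ p ^ (a - 1) = 1) :
    zSum p Z (fun H => (numLevelOver p a Z lam H : ℤ)) = 0 := by
  have e : (fun H : Subgroup G => (numLevelOver p a Z lam H : ℤ)) =
      fun H : Subgroup G => (numRationalOver p a Z lam H : ℤ) -
        (numRationalOver p (a - 1) Z lam H : ℤ) := funext fun H => by
    rw [numLevelOver_add (p := p) (a := a) lam H]
    push_cast
    ring
  rw [e, zSum_sub, sum_rationalOver hZ lam (fun h => by have := ha h; omega) (fun z hz => ?_),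
    sum_rationalOver hZ lam (fun h => by have := ha h; omega) hl, sub_self]
  have h1 := hl z hz
  have h2 : p ^ (a - 1) ∣ p ^ a := pow_dvd_pow p (Nat.sub_le a 1)
  obtain ⟨k, hk⟩ := h2
  rw [hk, pow_mul, h1, one_pow]

end Pool.Agent.V1140.DP
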